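import Pool.Agent.Run7.h439.DC.Inv3

set_option autoImplicit false

/-!
# The `3x+k` maps: unbounded orbits and cycles in the classes defined by digits in odd bases

We consider the integers of a given sign whose absolute values lie in a class given by the residues of
strongly additive digit functions (for example sums of digits) in pairwise coprime odd bases. Every set of
integers which is a union of classes of orbits which meet has its proportional share in every such class,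
with a power saving which is uniform in the set. Both questions, for the map `T_{3,k}`, are decided by
almost all members of one class.
-/

namespace Pool.Agent.Results.MP_7f88e4_nt.DigitClassesCycles

open Filter Topology

/-- the `3x+k` map on the integers -/
def T (k x : ℤ) : ℤ := if x % 2 = 0 then x / 2 else (3 * x + k) / 2

/-- `c` lies on a cycle of `T_{3,k}` -/
def Periodic (k c : ℤ) : Prop := ∃ p : ℕ, 1 ≤ p ∧ (T k)^[p] c = c

/-- the orbit of `n` is eventually periodic -/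
def EvPer (k n : ℤ) : Prop := ∃ m p : ℕ, 1 ≤ p ∧ (T k)^[m + p] n = (T k)^[m] n

/-- `S` contains an integer if and only if it contains its image -/
def Invariant (k : ℤ) (S : Set ℤ) : Prop := ∀ x : ℤ, x ∈ S ↔ T k x ∈ S

/-- `W` is strongly `q`-additive: `W(n)` is the sum of the values of `W` at the digits of `n` in base `q`. -/
def StronglyAdditive (q : ℕ) (W : ℕ → ℤ) : Prop := ∀ n r : ℕ, r < q → W (q * n + r) = W n + W r

/-- There is no prime `p ∣ m` such that `W(r) ≡ r W(1)` modulo `p` for all `r ≤ q`. For the sum of the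
digits in base `q` this says that `m` is coprime to `q - 1`. -/
def Unobstructed (q : ℕ) (W : ℕ → ℤ) (m : ℕ) : Prop :=
  ∀ p : ℕ, p.Prime → p ∣ m → ∃ r : ℕ, r ≤ q ∧ ¬ W r ≡ r * W 1 [ZMOD p]

/-- The data: pairwise coprime odd bases `q i ≥ 3`, strongly `q i`-additive functions `W i` with integer
values, and moduli `m i ≥ 1` without obstruction. -/
structure Data {l : ℕ} (q m : Fin l → ℕ) (W : Fin l → ℕ → ℤ) : Prop where
  odd : ∀ i, 3 ≤ q i ∧ q i % 2 = 1
  coprime : ∀ i j, i ≠ j → Nat.Coprime (q i) (q j)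
  additive : ∀ i, StronglyAdditive (q i) (W i)
  pos : ∀ i, 1 ≤ m i
  free : ∀ i, Unobstructed (q i) (W i) (m i)

/-- the class: `W i (n) ≡ a i` modulo `m i` for all `i` -/
def InClass {l : ℕ} (m : Fin l → ℕ) (W : Fin l → ℕ → ℤ) (a : Fin l → ℤ) (n : ℕ) : Prop :=
  ∀ i, W i n ≡ a i [ZMOD m i]

/-- The set of the positive integers with the property `P` has natural density `l`. -/
def HasDensity (P : ℕ → Prop) (l : ℝ) : Prop :=
  Tendsto (fun N : ℕ => (Set.ncard {n : ℕ | 1 ≤ n ∧ n ≤ N ∧ P n} : ℝ) / N) atTop (𝓝 l)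

open Pool.Agent.Run7.h439.DC
open Pool.Agent.H319R3.GC (Tm Adm)
open Pool.Agent.Y965.PL (Mn MnS ind ind_pos ind_neg ind_congr ind_nonneg)

theorem T_eq (k : ℤ) : Tm 2 m3 (r3 k) = T k := by rw [Tm3]; rfl

theorem count_ind (P : ℕ → Prop) (X : ℕ) :
    ({n : ℕ | 1 ≤ n ∧ n ≤ X ∧ P n}.ncard : ℝ) = ∑ n ∈ Finset.Icc 1 X, ind P n := by
  classical
  unfold ind
  rw [Finset.sum_boole]
  have e : {n : ℕ | 1 ≤ n ∧ n ≤ X ∧ P n} = ((Finset.Icc 1 X).filter fun n => P n : Finset ℕ) := by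
    ext n
    simp only [Set.mem_ofPred_eq, Finset.coe_filter, Finset.mem_Icc, and_assoc]
  rw [e, Set.ncard_coe_finset]

theorem along_of {P Q : ℕ → Prop} {d : ℝ} (h : Mn (ind Q) d) (hPQ : ∀ n, 1 ≤ n → (P n ↔ Q n)) : HasDensity P d := by
  unfold HasDensity
  unfold Mn at h
  refine h.congr fun X => ?_
  rw [count_ind P X]
  congr 1
  apply Finset.sum_congr rfl
  intro n hn
  exact ind_congr (hPQ _ (Finset.mem_Icc.1 hn).1).symm

theorem dens_unique {P : ℕ → Prop} {a b : ℝ} (h : HasDensity P a) (h' : HasDensity P b) : a = b := tendsto_nhds_unique h h'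

theorem dens_none {P : ℕ → Prop} (h : ∀ n, ¬ P n) : HasDensity P 0 := by
  unfold HasDensity
  refine tendsto_const_nhds.congr fun N => ?_
  have e : {n : ℕ | 1 ≤ n ∧ n ≤ N ∧ P n} = ∅ := by
    rw [Set.eq_empty_iff_forall_notMem]
    rintro n ⟨_, _, hn⟩
    exact h n hn
  rw [e]
  simp

theorem inv_ev (k : ℤ) : Invariant k {n : ℤ | EvPer k n} := by
  have h : {n : ℤ | EvPer k n}
      = {n : ℤ | ∃ j, ∃ p, 1 ≤ p ∧ (Pool.Agent.H499R2.ND.Td k)^[p] ((Pool.Agent.H499R2.ND.Td k)^[j] n) =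
        (Pool.Agent.H499R2.ND.Td k)^[j] n} := by
    ext n; exact Pool.Agent.H499R2.ND.evper_iff (T k) n
  rw [h]; exact Pool.Agent.H499R2.ND.inv_evper k

theorem inv_meet {k c : ℤ} (hc : Periodic k c) : Invariant k {n : ℤ | ∃ j : ℕ, (T k)^[j] n = c} := by
  have h : {n : ℤ | ∃ j : ℕ, (T k)^[j] n = c} = Pool.Agent.H499R2.ND.Mg (Pool.Agent.H499R2.ND.Td k) c :=
    Pool.Agent.H499R2.ND.basin_eq (f := Pool.Agent.H499R2.ND.Td k) hc
  rw [h]
  exact Pool.Agent.H499R2.ND.Mg_inv k c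

/-- THE `3x+k` MAPS IN DIGIT CLASSES. Let `k` be congruent to `1` or `5` modulo `6`.

(1) (Uniform transfer.) For all data `q, m, W` there are `K` and `c > 0` such that for both signs `s`, all
functions `f` with `f (T x) = f x` and `|f| ≤ 1`, all classes `a` and all `X ≥ 1` the sum of `f (s n)` over
the `n ≤ X` in the class is `∏ 1 / m i` times the sum over all `n ≤ X`, up to `K X ^ (1 - c)`.

(2) Let `s` be a sign and `S` an invariant set. The `n` with `s n ∈ S` have a natural density `δ`, positive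
if `S` contains a nonzero integer all whose orbit has the sign of `s`, and for all data and all classes
those in the class have natural density `(∏ 1 / m i) * δ`.

(3) All orbits of `T_{3,k}` are eventually periodic if and only if there are data and a class such that
for both signs `s` the orbits of `s n` are eventually periodic for almost all `n` in the class (the
exceptional ones have natural density `0`).

(4) `T_{3,k}` has only finitely many cycles if and only if there are data, a class and a finite set `C` of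
periodic points such that for both signs `s` almost every eventually periodic orbit which starts at some `s n`,
`n` in the class, ends in the cycle of an element of `C` (the exceptional `n` have natural density `0`). -/
theorem result (k : ℤ) (hk : k % 6 = 1 ∨ k % 6 = 5) :
    (∀ (l : ℕ) (q m : Fin l → ℕ) (W : Fin l → ℕ → ℤ), Data q m W → ∃ K c : ℝ, 0 < c ∧
      ∀ s : ℤ, s = 1 ∨ s = -1 → ∀ f : ℤ → ℝ, (∀ x, |f x| ≤ 1) → (∀ x, f (T k x) = f x) →
      ∀ (a : Fin l → ℤ) (X : ℕ), 1 ≤ X →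
        |∑ᶠ n ∈ {n : ℕ | 1 ≤ n ∧ n ≤ X ∧ InClass m W a n}, f (s * n) -
          (∏ i, 1 / (m i : ℝ)) * ∑ n ∈ Finset.Icc 1 X, f (s * n)| ≤ K * (X : ℝ) ^ (1 - c)) ∧
    (∀ s : ℤ, s = 1 ∨ s = -1 → ∀ S : Set ℤ, Invariant k S → ∃ δ : ℝ,
      ((∃ x ∈ S, ∀ j : ℕ, 0 < s * (T k)^[j] x) → 0 < δ) ∧
      HasDensity (fun n => s * (n : ℤ) ∈ S) δ ∧
      ∀ (l : ℕ) (q m : Fin l → ℕ) (W : Fin l → ℕ → ℤ), Data q m W → ∀ a : Fin l → ℤ,
        HasDensity (fun n => InClass m W a n ∧ s * (n : ℤ) ∈ S) ((∏ i, 1 / (m i : ℝ)) * δ)) ∧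
    ((∀ n : ℤ, EvPer k n) ↔
      ∃ (l : ℕ) (q m : Fin l → ℕ) (W : Fin l → ℕ → ℤ) (a : Fin l → ℤ), Data q m W ∧
        ∀ s : ℤ, s = 1 ∨ s = -1 → HasDensity (fun n => InClass m W a n ∧ ¬ EvPer k (s * n)) 0) ∧
    ({c : ℤ | Periodic k c}.Finite ↔
      ∃ (l : ℕ) (q m : Fin l → ℕ) (W : Fin l → ℕ → ℤ) (a : Fin l → ℤ) (C : Finset ℤ), Data q m W ∧
        (∀ c ∈ C, Periodic k c) ∧ ∀ s : ℤ, s = 1 ∨ s = -1 →
          HasDensity (fun n => InClass m W a n ∧ EvPer k (s * n) ∧ ¬ ∃ c ∈ C, ∃ j : ℕ, (T k)^[j] (s * n) = c) 0) := by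
  classical
  have hk2 : k % 2 = 1 := by omega
  have hk3 : ¬ (3 : ℤ) ∣ k := by omega
  have hodd : Odd k := Int.odd_iff.2 hk2
  have hc3 := Pool.Agent.H499R2.ND.cop_of_not_dvd hk3
  have hDD : ∀ {l : ℕ} {q m : Fin l → ℕ} {W : Fin l → ℕ → ℤ}, Data q m W → DD 2 q m W := by
    intro l q m W hD
    refine ⟨fun i => (hD.odd i).1, fun i => ?_, hD.coprime, hD.additive, hD.pos, hD.free⟩
    rw [Nat.coprime_two_left]
    exact Nat.odd_iff.2 (hD.odd i).2
  have hcl : ∀ {l : ℕ} {m : Fin l → ℕ} {W : Fin l → ℕ → ℤ} {a : Fin l → ℤ} (n : ℕ), InClass m W a n ↔ Ed m W a n :=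
    fun n => Ed_iff
  -- an orbit with all terms nonzero of one sign meets an integer prime to 3 of this sign
  have hprime : ∀ (s : ℤ) (x : ℤ), (∀ j : ℕ, 0 < s * (T k)^[j] x) → ∃ j : ℕ, 0 < s * (T k)^[j] x ∧ ¬ (3 : ℤ) ∣ (T k)^[j] x := by
    intro s x hx
    have hx0 : x ≠ 0 := by
      rintro rfl
      have := hx 0
      simp at this
    obtain ⟨j, hj⟩ := Pool.Agent.H499R2.ND.exists_prime3' hodd hk3 _ x hx0 le_rfl
    exact ⟨j, hx j, hj⟩
  have hinvit : ∀ {S : Set ℤ}, Invariant k S → ∀ (j : ℕ) (x : ℤ), x ∈ S ↔ (T k)^[j] x ∈ S :=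
    fun hS j x => Pool.Agent.H499R2.ND.inv_iter (d := k) hS j x
  have hposd : ∀ s : ℤ, s = 1 ∨ s = -1 → ∀ S : Set ℤ, Invariant k S → ∀ δ : ℝ, Pool.Agent.H499R2.ND.HD s S δ →
      (∃ x ∈ S, 0 < s * x ∧ ¬ (3 : ℤ) ∣ x) → 0 < δ := by
    rintro s hs S hS δ hδ ⟨x, hxS, hx, hx3⟩
    exact Pool.Agent.H499R2.ND.class_pos hodd hk3 hs (S := S) hS hxS hx hx3 hδ
  have hmain : ∀ s : ℤ, s = 1 ∨ s = -1 → ∀ S : Set ℤ, Invariant k S → ∃ δ : ℝ,
      ((∃ x ∈ S, 0 < s * x ∧ ¬ (3 : ℤ) ∣ x) → 0 < δ) ∧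
      HasDensity (fun n => s * (n : ℤ) ∈ S) δ ∧
      ∀ (l : ℕ) (q m : Fin l → ℕ) (W : Fin l → ℕ → ℤ), Data q m W → ∀ a : Fin l → ℤ,
        HasDensity (fun n => InClass m W a n ∧ s * (n : ℤ) ∈ S) ((∏ i, 1 / (m i : ℝ)) * δ) := by
    intro s hs S hS
    obtain ⟨δ, _, _, hδ⟩ := Pool.Agent.H499R2.ND.dens_side hodd hc3 hs (S := S) hS
    have hM := mn_side hs hδ
    refine ⟨δ, hposd s hs S hS δ hδ, along_of hM fun _ _ => Iff.rfl, fun l q m W hD a => ?_⟩
    obtain ⟨C, c, hC, hc0, _, hT⟩ := inv_ct (adm3 hodd) (hDD hD)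
    obtain ⟨hρ0, hρ1⟩ := rho01 hD.pos
    have h1 := inv_ct_set (s := s) (fun f hb hf => hT s hs f hb hf a) (S := S) (fun x => by rw [T_eq]; exact hS x)
    exact along_of (cls_set hρ0.le hρ1 hc0 h1 hM) fun n _ => and_congr (hcl n) Iff.rfl
  -- a nonzero element of an invariant set of density zero on both sides is impossible
  have hzero : ∀ S : Set ℤ, Invariant k S → (0 : ℤ) ∉ S → (∃ (l : ℕ) (q m : Fin l → ℕ) (W : Fin l → ℕ → ℤ) (a : Fin l → ℤ),
      Data q m W ∧ ∀ s : ℤ, s = 1 ∨ s = -1 → HasDensity (fun n => InClass m W a n ∧ s * (n : ℤ) ∈ S) 0) → S = ∅ := by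
    rintro S hS h0 ⟨l, q, m, W, a, hD, h⟩
    rw [Set.eq_empty_iff_forall_notMem]
    intro x hx
    have hx0 : x ≠ 0 := by rintro rfl; exact h0 hx
    obtain ⟨j, hj⟩ := Pool.Agent.H499R2.ND.exists_prime3' hodd hk3 _ x hx0 le_rfl
    set b := (Pool.Agent.H499R2.ND.Td k)^[j] x with hb
    have hbS : b ∈ S := (hinvit hS j x).1 hx
    have hb0 : b ≠ 0 := by
      intro h1
      apply hj
      rw [h1]; exact dvd_zero _
    obtain ⟨s, hs, hsb⟩ : ∃ s : ℤ, (s = 1 ∨ s = -1) ∧ 0 < s * b := by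
      rcases lt_or_gt_of_ne hb0 with g | g
      · exact ⟨-1, Or.inr rfl, by omega⟩
      · exact ⟨1, Or.inl rfl, by omega⟩
    obtain ⟨δ, hpos, _, h2⟩ := hmain s hs S hS
    have h3 := dens_unique (h2 l q m W hD a) (h s hs)
    have h4 := hpos ⟨b, hbS, hsb, hj⟩
    obtain ⟨hρ0, _⟩ := rho01 hD.pos
    have : 0 < (∏ i, 1 / (m i : ℝ)) * δ := mul_pos hρ0 h4
    linarith
  have htriv : Data (fun i : Fin 0 => i.elim0) (fun i => i.elim0) (fun i => i.elim0) :=
    ⟨fun i => i.elim0, fun i => i.elim0, fun i => i.elim0, fun i => i.elim0, fun i => i.elim0⟩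
  have hTev : EvPer k 0 := ⟨0, 1, le_refl _, rfl⟩
  refine ⟨fun l q m W hD => ?_, fun s hs S hS => ?_, ⟨fun h => ?_, ?_⟩, ⟨fun h => ?_, ?_⟩⟩
  · obtain ⟨C, c, hC, hc0, _, hT⟩ := inv_ct (adm3 hodd) (hDD hD)
    refine ⟨C, c, hc0, fun s hs f hb hf a X hX => ?_⟩
    have h1 := (hT s hs f hb (fun x => by rw [T_eq]; exact hf x) a).tr X hX
    have hset : ∑ᶠ n ∈ {n : ℕ | 1 ≤ n ∧ n ≤ X ∧ InClass m W a n}, f (s * n) =
        ∑ n ∈ Finset.Icc 1 X, ind (Ed m W a) n * f (s * n) := by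
      rw [finsum_mem_eq_finite_toFinset_sum _ ((Set.finite_Iic X).subset fun n hn => hn.2.1)]
      have e : ((Set.finite_Iic X).subset fun n (hn : n ∈ {n : ℕ | 1 ≤ n ∧ n ≤ X ∧ InClass m W a n}) => hn.2.1).toFinset
          = (Finset.Icc 1 X).filter (fun n => Ed m W a n) := by
        ext n
        simp only [Set.Finite.mem_toFinset, Set.mem_ofPred_eq, Finset.mem_filter, Finset.mem_Icc, hcl, and_assoc]
      rw [e, Finset.sum_filter]
      apply Finset.sum_congr rfl
      intro n _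
      by_cases h : Ed m W a n
      · rw [if_pos h, ind_pos h, one_mul]
      · rw [if_neg h, ind_neg h, zero_mul]
    rw [hset]
    exact h1
  · obtain ⟨δ, hpos, h1, h2⟩ := hmain s hs S hS
    refine ⟨δ, ?_, h1, h2⟩
    rintro ⟨x, hxS, hx⟩
    obtain ⟨j, hj, hj3⟩ := hprime s x hx
    exact hpos ⟨_, (hinvit hS j x).1 hxS, hj, hj3⟩
  · exact ⟨0, _, _, _, fun i => i.elim0, htriv, fun s hs => dens_none fun n hn => hn.2 (h _)⟩
  · rintro ⟨l, q, m, W, a, hD, h⟩ n
    have hS : Invariant k {n : ℤ | ¬ EvPer k n} := fun x => not_congr (inv_ev k x)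
    have h1 := hzero _ hS (fun h => h hTev) ⟨l, q, m, W, a, hD, h⟩
    by_contra hn
    have : n ∈ {n : ℤ | ¬ EvPer k n} := hn
    rw [h1] at this
    exact this
  · refine ⟨0, _, _, _, fun i => i.elim0, h.toFinset, htriv, fun c hc => by simpa using hc, fun s hs => dens_none ?_⟩
    rintro n ⟨_, h1, h2⟩
    apply h2
    obtain ⟨j, hj⟩ := (Pool.Agent.H499R2.ND.evper_iff (T k) (s * n)).1 h1
    exact ⟨(T k)^[j] (s * n), (Set.Finite.mem_toFinset h).2 hj, j, rfl⟩
  · rintro ⟨l, q, m, W, a, C, hD, hC, h⟩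
    have hS : Invariant k {n : ℤ | n ≠ 0 ∧ (∀ j : ℕ, (T k)^[j] n ≠ 0) ∧ EvPer k n ∧ ¬ ∃ c ∈ C, ∃ j : ℕ, (T k)^[j] n = c} := by
      intro x
      have h1 := inv_ev k x
      have h2 : (∃ c ∈ C, ∃ j : ℕ, (T k)^[j] x = c) ↔ (∃ c ∈ C, ∃ j : ℕ, (T k)^[j] (T k x) = c) := by
        refine exists_congr fun c => and_congr_right fun hc => ?_
        exact inv_meet (hC c hc) x
      have hT0 : T k 0 = 0 := rfl
      have h3 : (x ≠ 0 ∧ ∀ j : ℕ, (T k)^[j] x ≠ 0) ↔ (T k x ≠ 0 ∧ ∀ j : ℕ, (T k)^[j] (T k x) ≠ 0) := by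
        have hp0 : Periodic k 0 := ⟨1, le_refl _, rfl⟩
        have h4 := inv_meet hp0 x
        have h5 : (∀ j : ℕ, (T k)^[j] x ≠ 0) ↔ (∀ j : ℕ, (T k)^[j] (T k x) ≠ 0) := by
          have := not_congr h4
          simp only [Set.mem_ofPred_eq, not_exists] at this
          exact this
        constructor
        · rintro ⟨_, g⟩
          exact ⟨h5.1 g 0, h5.1 g⟩
        · rintro ⟨_, g⟩
          exact ⟨h5.2 g 0, h5.2 g⟩
      show (x ≠ 0 ∧ (∀ j : ℕ, (T k)^[j] x ≠ 0) ∧ EvPer k x ∧ ¬ ∃ c ∈ C, ∃ j : ℕ, (T k)^[j] x = c) ↔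
        (T k x ≠ 0 ∧ (∀ j : ℕ, (T k)^[j] (T k x) ≠ 0) ∧ EvPer k (T k x) ∧ ¬ ∃ c ∈ C, ∃ j : ℕ, (T k)^[j] (T k x) = c)
      have h1' : EvPer k x ↔ EvPer k (T k x) := h1
      rw [← and_assoc, h3, h1', h2, and_assoc]
    have h1 := hzero _ hS (fun h => h.1 rfl) ⟨l, q, m, W, a, hD, fun s hs => ?_⟩
    · -- every periodic point is 0 or on the orbit of an element of `C`
      have horb : ∀ c : ℤ, Periodic k c → {y : ℤ | ∃ j : ℕ, (T k)^[j] c = y}.Finite := by
        rintro c ⟨p, hp, hpc⟩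
        apply Set.Finite.subset ((Finset.range p).image fun j => (T k)^[j] c).finite_toSet
        rintro y ⟨j, rfl⟩
        rw [Finset.coe_image, Set.mem_image]
        refine ⟨j % p, by simpa using Nat.mod_lt j (by omega), ?_⟩
        have hmul : ∀ t : ℕ, (T k)^[p * t] c = c := by
          intro t
          induction t with
          | zero => rfl
          | succ t ih => rw [Nat.mul_succ, Function.iterate_add_apply, hpc, ih]
        conv_rhs => rw [← Nat.mod_add_div j p, Function.iterate_add_apply, hmul]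
      have hfin : ({0} ∪ ⋃ c ∈ C, {y : ℤ | ∃ j : ℕ, (T k)^[j] c = y}).Finite := by
        apply Set.Finite.union (Set.finite_singleton 0)
        exact Set.Finite.biUnion C.finite_toSet fun c hc => horb c (hC c hc)
      apply hfin.subset
      intro x hx
      obtain ⟨p, hp, hpx⟩ := hx
      by_cases hx0 : ∃ j : ℕ, (T k)^[j] x = 0
      · left
        obtain ⟨j, hj⟩ := hx0
        have h0it : ∀ i : ℕ, (T k)^[i] 0 = 0 := by
          intro i
          induction i with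
          | zero => rfl
          | succ i ih => rw [Function.iterate_succ_apply, show T k 0 = 0 from rfl, ih]
        have hmul : (T k)^[p * j] x = x := by
          have : ∀ t : ℕ, (T k)^[p * t] x = x := by
            intro t
            induction t with
            | zero => rfl
            | succ t ih => rw [Nat.mul_succ, Function.iterate_add_apply, hpx, ih]
          exact this j
        have h2 : (T k)^[p * j] x = 0 := by
          have h3 : j ≤ p * j := Nat.le_mul_of_pos_left j (by omega)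
          obtain ⟨u, hu⟩ := Nat.exists_eq_add_of_le' h3
          rw [hu, Function.iterate_add_apply, hj, h0it]
        rw [hmul] at h2
        exact h2
      · right
        push Not at hx0
        have hxe : EvPer k x := ⟨0, p, hp, by rw [zero_add]; exact hpx⟩
        have h2 : ∃ c ∈ C, ∃ j : ℕ, (T k)^[j] x = c := by
          by_contra hcon
          have : x ∈ {n : ℤ | n ≠ 0 ∧ (∀ j : ℕ, (T k)^[j] n ≠ 0) ∧ EvPer k n ∧ ¬ ∃ c ∈ C, ∃ j : ℕ, (T k)^[j] n = c} :=
            ⟨hx0 0, hx0, hxe, hcon⟩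
          rw [h1] at this
          exact this
        obtain ⟨c, hc, j, hj⟩ := h2
        rw [Set.mem_iUnion₂]
        refine ⟨c, hc, p * j - j, ?_⟩
        have h3 : j ≤ p * j := Nat.le_mul_of_pos_left j (by omega)
        rw [← hj, ← Function.iterate_add_apply, Nat.sub_add_cancel h3]
        have : ∀ t : ℕ, (T k)^[p * t] x = x := by
          intro t
          induction t with
          | zero => rfl
          | succ t ih => rw [Nat.mul_succ, Function.iterate_add_apply, hpx, ih]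
        exact this j
    · have h2 := h s hs
      unfold HasDensity at h2 ⊢
      refine squeeze_zero (fun N => by positivity) (fun N => ?_) h2
      apply div_le_div_of_nonneg_right _ (Nat.cast_nonneg _)
      have hfin : {n : ℕ | 1 ≤ n ∧ n ≤ N ∧ InClass m W a n ∧ EvPer k (s * n) ∧ ¬ ∃ c ∈ C, ∃ j : ℕ, (T k)^[j] (s * n) = c}.Finite :=
        (Set.finite_Iic N).subset fun n hn => hn.2.1
      have hsub : {n : ℕ | 1 ≤ n ∧ n ≤ N ∧ InClass m W a n ∧ s * (n : ℤ) ∈ {n : ℤ | n ≠ 0 ∧ (∀ j : ℕ, (T k)^[j] n ≠ 0) ∧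
          EvPer k n ∧ ¬ ∃ c ∈ C, ∃ j : ℕ, (T k)^[j] n = c}} ⊆
          {n : ℕ | 1 ≤ n ∧ n ≤ N ∧ InClass m W a n ∧ EvPer k (s * n) ∧ ¬ ∃ c ∈ C, ∃ j : ℕ, (T k)^[j] (s * n) = c} := by
        rintro n ⟨g1, g2, g3, _, _, g4, g5⟩
        exact ⟨g1, g2, g3, g4, g5⟩
      exact_mod_cast Set.ncard_le_ncard hsub hfin

end Pool.Agent.Results.MP_7f88e4_nt.DigitClassesCycles
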