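import Mathlib
import Pool.Agent.Run7.h195.IsoN

set_option autoImplicit false

/-!
# Isolated members of the invariant sets of the `3x + 1` map on the integers

Let `S` be a set of integers invariant under the `3x + 1` map of the integers and its inverse, and
suppose that some but not all integers of the sign `s` belong to it. Then the odd members of `S` of
this sign without an even member of `S` at a distance of at most `exp ((log n) ^ θ)`, `θ < 1/2`, are
infinitely many, and the sum of `exp ((log n) ^ θ) / n` over them diverges. Unconditionally this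
applies to the sets of the negative integers whose orbits enter a given cycle, for instance the cycles
of `-1`, `-5` and `-17`.

Method. By the starting file `W38/AFe` almost all long runs of integers of either sign merge, so that a
positive proportion of the integers `z` lie in long runs without members of `S`. If all odd members
had even members nearby, then halving would lead from every member of `S` near `2 ^ j z` down to a
member near `z`; the density of `S` forces many members without an even member nearby.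
-/

namespace Pool.Agent.Results.MP_7f88e4_nt.IsolatedMembers

open Filter

/-- The map `T_{3,1}` on the integers. -/
def T (x : ℤ) : ℤ := if x % 2 = 0 then x / 2 else (3 * x + 1) / 2

/-- `S` is invariant under the map and its inverse. -/
def Invariant (S : Set ℤ) : Prop := ∀ x : ℤ, x ∈ S ↔ T x ∈ S

/-- The integers with an eventually periodic orbit. -/
def Periodic : Set ℤ := {x | ∃ m p : ℕ, 1 ≤ p ∧ T^[m + p] x = T^[m] x}

/-- The integers whose orbit contains `a`. -/
def Basin (a : ℤ) : Set ℤ := {x | ∃ k : ℕ, T^[k] x = a}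

/-- The odd `n ≥ 1` such that `s n` is in `S` and `s m` is not in `S` for every even `m ≥ 1` at a
distance of at most `w n` from `n`. -/
def Isolated (s : ℤ) (w : ℕ → ℝ) (S : Set ℤ) : Set ℕ :=
  {n | n % 2 = 1 ∧ s * n ∈ S ∧ ∀ m : ℕ, 1 ≤ m → m % 2 = 0 → |(m : ℝ) - n| ≤ w n → ¬ s * (m : ℤ) ∈ S}

/-- The distance `exp ((log n) ^ θ)`. -/
noncomputable def radius (θ : ℝ) (n : ℕ) : ℝ := Real.exp (Real.log n ^ θ)

/-- The conclusions on the isolated members of `S` of sign `s`. -/
def ManyIsolated (s : ℤ) (S : Set ℤ) : Prop :=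
  (∀ M : ℝ, 0 ≤ M → ¬ Summable fun n : Isolated s (fun _ => M) S => 1 / ((n : ℕ) : ℝ)) ∧
    ∀ θ : ℝ, 0 < θ → θ < 1 / 2 → (Isolated s (radius θ) S).Infinite ∧
      ¬ Summable fun n : Isolated s (radius θ) S => radius θ n / ((n : ℕ) : ℝ)

/-! ### proofs -/

open Pool.Agent.Run7.h195.Iso

open Pool.Agent.W38.CR (GG)

open Pool.Agent.H499R2.ND (Ci)

theorem inv_Ci {S : Set ℤ} (hS : Invariant S) (x : ℤ) : x ∈ S ↔ Ci x ∈ S := by
  have h1 := hS x
  unfold T at h1
  unfold Ci
  by_cases h : x % 2 = 0
  · rw [if_pos h] at h1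
    rw [if_pos h]
    exact h1
  · rw [if_neg h] at h1
    rw [if_neg h, h1]
    have h2 := hS (3 * x + 1)
    unfold T at h2
    rw [if_pos (by omega)] at h2
    exact h2.symm

theorem compl_inv {S : Set ℤ} (hS : Invariant S) : Invariant Sᶜ := fun x => not_congr (hS x)

theorem periodic_inv : Invariant Periodic := by
  intro x
  constructor
  · rintro ⟨m, p, hp, h⟩
    refine ⟨m, p, hp, ?_⟩
    have e1 : T^[m + p] (T x) = T (T^[m + p] x) := by
      rw [← Function.iterate_succ_apply, Function.iterate_succ_apply']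
    have e2 : T^[m] (T x) = T (T^[m] x) := by
      rw [← Function.iterate_succ_apply, Function.iterate_succ_apply']
    rw [e1, h, e2]
  · rintro ⟨m, p, hp, h⟩
    refine ⟨m + 1, p, hp, ?_⟩
    rw [show m + 1 + p = (m + p) + 1 by ring, Function.iterate_succ_apply,
      Function.iterate_succ_apply]
    exact h

theorem basin_inv {a : ℤ} {p : ℕ} (hp : 1 ≤ p) (ha : T^[p] a = a) : Invariant (Basin a) := by
  intro x
  constructor
  · rintro ⟨j, hj⟩
    rcases j with _ | j
    · have hx : x = a := hj
      obtain ⟨m, rfl⟩ : ∃ m, p = m + 1 := ⟨p - 1, by omega⟩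
      exact ⟨m, by rw [hx, ← Function.iterate_succ_apply]; exact ha⟩
    · exact ⟨j, by rwa [Function.iterate_succ_apply] at hj⟩
  · rintro ⟨j, hj⟩
    exact ⟨j + 1, by rwa [Function.iterate_succ_apply]⟩

theorem part_θ {s : ℤ} (hs : s = 1 ∨ s = -1) {S : Set ℤ} (hS : Invariant S)
    (h1 : ∃ x ∈ S, 0 < s * x) (h2 : ∃ x, x ∉ S ∧ 0 < s * x) {θ : ℝ} (hθ : 0 < θ) (hθ1 : θ < 1 / 2) :
    ¬ Summable fun n : Isolated s (radius θ) S => radius θ n / ((n : ℕ) : ℝ) := by
  intro hsum
  refine mainN hs (inv_Ci hS) h1 h2 (w := ww θ) (fun n => (by linarith [one_le_ww θ n])) (ww_mono hθ)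
    (ww_small (by linarith)) (ww_three hθ (by linarith)) ?_ ?_
  · filter_upwards [ww_GG hθ hθ1] with x hx y hxy
    have h1 := hx y (by omega)
    have h2 := one_le_ww θ (4 * x)
    linarith
  · refine Summable.of_nonneg_of_le (fun n => ?_) (fun n => ?_) (hsum.mul_left 2)
    · have := one_le_ww θ n
      positivity
    · rw [← mul_div_assoc]
      apply div_le_div_of_nonneg_right _ (Nat.cast_nonneg _)
      have h3 := one_le_ww θ n
      show ww θ n + 1 ≤ 2 * ww θ n
      linarith

theorem part_M {s : ℤ} (hs : s = 1 ∨ s = -1) {S : Set ℤ} (hS : Invariant S)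
    (h1 : ∃ x ∈ S, 0 < s * x) (h2 : ∃ x, x ∉ S ∧ 0 < s * x) (M : ℝ) (hM : 0 ≤ M) :
    ¬ Summable fun n : Isolated s (fun _ => M) S => 1 / ((n : ℕ) : ℝ) := by
  intro hsum
  refine mainN hs (inv_Ci hS) h1 h2 (w := fun _ => M) (fun n => hM) monotone_const
    ?_ ?_ ?_ ?_
  · exact tendsto_natCast_atTop_atTop.eventually (eventually_ge_atTop (100 * M))
  · exact Eventually.of_forall fun n => by linarith
  · have h1 : Tendsto (fun x : ℕ => ww (1 / 4) (4 * x)) atTop atTop := by
      unfold ww
      refine Real.tendsto_exp_atTop.comp ((tendsto_rpow_atTop (by norm_num)).comp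
        (tendsto_log_nat.comp ?_))
      exact tendsto_atTop_mono (fun x => by show x ≤ 4 * x; omega) tendsto_id
    filter_upwards [ww_GG (θ := 1 / 4) (by norm_num) (by norm_num),
      h1.eventually (eventually_ge_atTop M)] with x hx h2 y hxy
    have h3 := hx y (by omega)
    have h4 := one_le_ww (1 / 4) (4 * x)
    linarith
  · have := hsum.mul_left (M + 1)
    refine this.congr fun n => ?_
    ring

theorem summable_of_finite {s : ℤ} {w : ℕ → ℝ} {S : Set ℤ} (h : (Isolated s w S).Finite)
    (f : ℕ → ℝ) : Summable fun n : Isolated s w S => f n := by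
  have := h.to_subtype
  exact Summable.of_finite

theorem many {s : ℤ} (hs : s = 1 ∨ s = -1) {S : Set ℤ} (hS : Invariant S)
    (h1 : ∃ x ∈ S, 0 < s * x) (h2 : ∃ x, x ∉ S ∧ 0 < s * x) : ManyIsolated s S :=
  ⟨part_M hs hS h1 h2, fun θ hθ hθ1 =>
    ⟨fun hfin => part_θ hs hS h1 h2 hθ hθ1
      (summable_of_finite hfin fun n => radius θ n / (n : ℝ)), part_θ hs hS h1 h2 hθ hθ1⟩⟩

theorem iter1 (j : ℕ) : T^[j] (-1) = -1 := by
  induction j with
  | zero => rfl
  | succ j ih => rw [Function.iterate_succ_apply, show T (-1) = -1 by decide, ih]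

theorem iter5 (j : ℕ) : T^[j] (-5) = -5 ∨ T^[j] (-5) = -7 ∨ T^[j] (-5) = -10 := by
  induction j with
  | zero => left; rfl
  | succ j ih =>
    rw [Function.iterate_succ_apply']
    rcases ih with h | h | h
    · right; left; rw [h]; decide
    · right; right; rw [h]; decide
    · left; rw [h]; decide

/-- (1) Let `S` be a set of integers invariant under the `3x + 1` map and its inverse, `s` a sign, and
suppose that some but not all integers of sign `s` are in `S`. For every `M` the odd `n` with `s n` in
`S`, such that no even `m ≥ 1` at a distance of at most `M` from `n` has `s m` in `S`, have a divergent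
sum of reciprocals. For `0 < θ < 1/2` there are infinitely many such `n` for the distance
`exp ((log n) ^ θ)`, and the sum of `exp ((log n) ^ θ) / n` over them diverges.

(2) In particular this is true, for `s = -1`, for the set of the integers whose orbit enters the
cycle of any given negative periodic point, for instance of `-1`, `-5` or `-17`.

(3) Let `0 < θ < 1/2` and let `s` be a sign. The following are equivalent: (i) all integers of sign `s`
have an eventually periodic orbit; (ii) for all but finitely many odd `n`, if `s m` has an eventually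
periodic orbit for all even `m ≥ 1` at a distance of at most `exp ((log n) ^ θ)` from `n`, then so has
`s n`; (iii) for all but finitely many odd `n` such that `s n` has an eventually periodic orbit, some
even `m ≥ 1` at a distance of at most `exp ((log n) ^ θ)` from `n` is such that `s m` has one; (iv) the
sum of `exp ((log n) ^ θ) / n` over the exceptions to (ii) converges; (v) the same for (iii). -/
theorem result :
    (∀ s : ℤ, (s = 1 ∨ s = -1) → ∀ S : Set ℤ, Invariant S → (∃ x ∈ S, 0 < s * x) →
      (∃ x, x ∉ S ∧ 0 < s * x) → ManyIsolated s S) ∧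
    (∀ (a : ℤ) (p : ℕ), a < 0 → 1 ≤ p → T^[p] a = a → ManyIsolated (-1) (Basin a)) ∧
    (T^[1] (-1) = -1 ∧ T^[3] (-5) = -5 ∧ T^[11] (-17) = -17) ∧
    ∀ s : ℤ, (s = 1 ∨ s = -1) → ∀ θ : ℝ, 0 < θ → θ < 1 / 2 →
      [∀ x : ℤ, 0 < s * x → x ∈ Periodic,
        ∀ᶠ n : ℕ in atTop, n % 2 = 1 →
          (∀ m : ℕ, 1 ≤ m → m % 2 = 0 → |(m : ℝ) - n| ≤ radius θ n → s * (m : ℤ) ∈ Periodic) →
          s * (n : ℤ) ∈ Periodic,
        ∀ᶠ n : ℕ in atTop, n % 2 = 1 → s * (n : ℤ) ∈ Periodic →
          ∃ m : ℕ, 1 ≤ m ∧ m % 2 = 0 ∧ |(m : ℝ) - n| ≤ radius θ n ∧ s * (m : ℤ) ∈ Periodic,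
        Summable fun n : Isolated s (radius θ) Periodicᶜ => radius θ n / ((n : ℕ) : ℝ),
        Summable fun n : Isolated s (radius θ) Periodic => radius θ n / ((n : ℕ) : ℝ)].TFAE := by
  refine ⟨fun s hs S hS h1 h2 => many hs hS h1 h2, ?_, ⟨by decide, by decide, by decide⟩, ?_⟩
  · intro a p ha hp hper
    refine many (Or.inr rfl) (basin_inv hp hper) ⟨a, ⟨0, rfl⟩, by omega⟩ ?_
    by_contra hcon
    push Not at hcon
    have h1 : (-1 : ℤ) ∈ Basin a := by
      by_contra h
      have := hcon (-1) h
      omega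
    have h5 : (-5 : ℤ) ∈ Basin a := by
      by_contra h
      have := hcon (-5) h
      omega
    obtain ⟨i, hi⟩ := h1
    obtain ⟨j, hj⟩ := h5
    rw [iter1] at hi
    rcases iter5 j with h | h | h <;> rw [h] at hj <;> omega
  intro s hs θ hθ hθ1
  have hmem : ∃ x ∈ Periodic, 0 < s * x := by
    rcases hs with rfl | rfl
    · exact ⟨1, ⟨0, 2, by norm_num, by decide⟩, by norm_num⟩
    · exact ⟨-1, ⟨0, 1, by norm_num, by decide⟩, by norm_num⟩
  have hfin : ∀ S : Set ℤ, (∀ᶠ n : ℕ in atTop, n ∉ Isolated s (radius θ) S) →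
      (Isolated s (radius θ) S).Finite := by
    intro S h
    obtain ⟨N, hN⟩ := h.exists_forall_of_atTop
    apply (Set.finite_Iio N).subset
    intro n hn
    by_contra hcon
    exact hN n (by simpa using hcon) hn
  have hpos : ∀ n : ℕ, 1 ≤ n → 0 < s * (s * (n : ℤ)) := by
    intro n hn
    rcases hs with rfl | rfl <;> push_cast <;> omega
  tfae_have 1 → 2 := fun h => Eventually.of_forall fun n hn _ => h _ (hpos n (by omega))
  tfae_have 1 → 3 := fun h => Eventually.of_forall fun n hn _ =>
    ⟨n + 1, by omega, by omega, by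
      push_cast
      rw [add_sub_cancel_left, abs_one]
      exact one_le_ww θ n, h _ (hpos _ (by omega))⟩
  tfae_have 2 → 4 := by
    intro h
    refine summable_of_finite (hfin _ ?_) fun n => radius θ n / (n : ℝ)
    filter_upwards [h] with n hn hn'
    obtain ⟨h3, h4, h5⟩ := hn'
    exact h4 (hn h3 fun m hm1 hm2 hm3 => by
      by_contra h6
      exact h5 m hm1 hm2 hm3 h6)
  tfae_have 3 → 5 := by
    intro h
    refine summable_of_finite (hfin _ ?_) fun n => radius θ n / (n : ℝ)
    filter_upwards [h] with n hn hn'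
    obtain ⟨h3, h4, h5⟩ := hn'
    obtain ⟨m, hm1, hm2, hm3, hm4⟩ := hn h3 h4
    exact h5 m hm1 hm2 hm3 hm4
  tfae_have 4 → 1 := by
    intro h
    by_contra hcon
    push Not at hcon
    obtain ⟨x, hx1, hx2⟩ := hcon
    obtain ⟨y, hy1, hy2⟩ := hmem
    exact part_θ hs (compl_inv periodic_inv) ⟨x, hx2, hx1⟩ ⟨y, not_not.2 hy1, hy2⟩ hθ hθ1 h
  tfae_have 5 → 1 := by
    intro h
    by_contra hcon
    push Not at hcon
    obtain ⟨x, hx1, hx2⟩ := hcon
    exact part_θ hs periodic_inv hmem ⟨x, hx2, hx1⟩ hθ hθ1 h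
  tfae_finish

end Pool.Agent.Results.MP_7f88e4_nt.IsolatedMembers
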