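import Mathlib
import Pool.Agent.H499R2.NDCor3
import Pool.Agent.Run7.h145.QK.E

set_option autoImplicit false

/-!
The `3x+k` maps: sets invariant under the map, eventually periodic orbits and basins of cycles along the
values of quadratic polynomials in several variables.

The values have density zero or large multiplicities (for example the sums of two squares); all
statements count the points of a box at which the value is in the set.
-/

namespace Pool.Agent.Results.MP_7f88e4_nt.QuadraticValues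

open Filter Topology Finset

/-- the `3x+k` map on the integers -/
def T (k x : ℤ) : ℤ := if x % 2 = 0 then x / 2 else (3 * x + k) / 2

/-- the orbit of `n` is eventually periodic -/
def EvPer (k n : ℤ) : Prop := ∃ m p : ℕ, 1 ≤ p ∧ (T k)^[m + p] n = (T k)^[m] n

/-- `c` lies on a cycle -/
def Periodic (k c : ℤ) : Prop := ∃ p : ℕ, 1 ≤ p ∧ (T k)^[p] c = c

/-- the integers whose orbit passes through `c` -/
def Basin (k c : ℤ) : Set ℤ := {n | ∃ j : ℕ, (T k)^[j] n = c}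

/-- `S` is invariant under the map and its inverse -/
def Invariant (k : ℤ) (S : Set ℤ) : Prop := ∀ x : ℤ, x ∈ S ↔ T k x ∈ S

/-- Among the integers of sign `s` congruent to `a` modulo `k` the set `S` has the natural density `δ`. -/
def HasDensity (s k a : ℤ) (S : Set ℤ) (δ : ℝ) : Prop :=
  Tendsto (fun N : ℕ => (k.natAbs : ℝ) * ({n : ℤ | 0 < s * n ∧ s * n ≤ N ∧ n ≡ a [ZMOD k] ∧ n ∈ S}.ncard : ℝ) / N)
    atTop (𝓝 δ)

/-- The value at `x` of the quadratic polynomial with quadratic part `∑ A i j x i x j`, linear part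
`∑ l i x i` and constant term `c`. -/
def Val {n : ℕ} (A : Fin n → Fin n → ℤ) (l : Fin n → ℤ) (c : ℤ) (x : Fin n → ℤ) : ℤ :=
  ∑ i, ∑ j, A i j * x i * x j + ∑ i, l i * x i + c

/-- The quadratic form `∑ A i j x i x j` has rank at least two: the symmetric matrix
`A i j + A j i` has a minor of order two that is not zero. -/
def RankTwo {n : ℕ} (A : Fin n → Fin n → ℤ) : Prop :=
  ∃ p q r s : Fin n, (A p r + A r p) * (A q s + A s q) ≠ (A p s + A s p) * (A q r + A r q)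

/-- The integral points `x` of the box `a i < x i ≤ b i` with `x ∈ D` at which the polynomial has a value of
sign `s` with `u < value ≤ v`. -/
def Points {n : ℕ} (s : ℤ) (A : Fin n → Fin n → ℤ) (l : Fin n → ℤ) (c : ℤ) (a b : Fin n → ℤ) (u v : ℤ)
    (D : Set (Fin n → ℤ)) : Set (Fin n → ℤ) :=
  {x | (∀ i, a i < x i ∧ x i ≤ b i) ∧ (u < Val A l c x ∧ Val A l c x ≤ v) ∧ 0 < s * Val A l c x ∧ x ∈ D}

/-- THE LAW of the set `S` along the values of sign `s` of quadratic polynomials, with the densities `δ a` in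
the residue classes modulo `k`: for every integral quadratic form of rank at least two in `n` variables,
`B > 0`, `ε > 0`, `q ≥ 1` and all large `R`, for all polynomials with this quadratic part, linear
coefficients at most `B R` and constant term at most `B R ^ 2`, all boxes in `[-R, R] ^ n`, all `u`, `v`
and all sets `D` of integral points periodic modulo `q`, the number of the points `x ∈ D` of the box with a
value of sign `s` between `u` and `v` in `S` is the sum over `j < |k|` of `δ j` times the number of the points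
`x ∈ D` of the box with a value of sign `s` between `u` and `v` congruent to `j` modulo `k`, up to
`ε R ^ n`. -/
def Law (s k : ℤ) (S : Set ℤ) (δ : ℤ → ℝ) : Prop := ∀ (n : ℕ) (A : Fin n → Fin n → ℤ), RankTwo A →
  ∀ (B ε : ℝ) (q : ℕ), 0 < B → 0 < ε → 1 ≤ q → ∃ R₀ : ℕ, ∀ R : ℕ, R₀ ≤ R →
  ∀ (l : Fin n → ℤ) (c : ℤ) (a b : Fin n → ℤ), (∀ i, |(l i : ℝ)| ≤ B * R) → |(c : ℝ)| ≤ B * R ^ 2 →
  (∀ i, |a i| ≤ R ∧ |b i| ≤ R) → ∀ (u v : ℤ) (D : Set (Fin n → ℤ)),
  (∀ x y : Fin n → ℤ, (∀ i, x i ≡ y i [ZMOD q]) → (x ∈ D ↔ y ∈ D)) →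
  |({x ∈ Points s A l c a b u v D | Val A l c x ∈ S}.ncard : ℝ) -
    ∑ j ∈ range k.natAbs, δ j * ({x ∈ Points s A l c a b u v D | Val A l c x ≡ (j : ℤ) [ZMOD k]}.ncard : ℝ)| ≤ ε * R ^ n

/-- The integral points of the cube `[-N, N] ^ n` at which the polynomial has a value of sign `s` in `S`. -/
def Cube {n : ℕ} (s : ℤ) (A : Fin n → Fin n → ℤ) (l : Fin n → ℤ) (c : ℤ) (S : Set ℤ) (N : ℕ) : Set (Fin n → ℤ) :=
  {x | (∀ i, |x i| ≤ N) ∧ 0 < s * Val A l c x ∧ Val A l c x ∈ S}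

theorem unb_inv (k : ℤ) : Pool.Agent.H499R2.ND.Inv k {n : ℤ | EvPer k n}ᶜ := by
  have h : {n : ℤ | EvPer k n}
      = {n : ℤ | ∃ j, ∃ p, 1 ≤ p ∧ (Pool.Agent.H499R2.ND.Td k)^[p] ((Pool.Agent.H499R2.ND.Td k)^[j] n) =
        (Pool.Agent.H499R2.ND.Td k)^[j] n} := by
    ext n; exact Pool.Agent.H499R2.ND.evper_iff (Pool.Agent.H499R2.ND.Td k) n
  rw [h]
  exact (Pool.Agent.H499R2.ND.inv_evper k).compl

/-- an orbit that is not eventually periodic contains an integer prime to three -/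
theorem exists_unb {k : ℤ} (hk : k % 6 = 1 ∨ k % 6 = 5) {x : ℤ} (hx : ¬ EvPer k x) :
    ∃ s a : ℤ, (s = 1 ∨ s = -1) ∧ 0 < s * a ∧ ¬ (3 : ℤ) ∣ a ∧ ¬ EvPer k a := by
  have hodd : Odd k := by rw [Int.odd_iff]; omega
  have hk3 : ¬ (3 : ℤ) ∣ k := by omega
  have hn0 : x ≠ 0 := by
    rintro rfl
    exact hx ⟨0, 1, le_refl _, rfl⟩
  obtain ⟨j, hj⟩ := Pool.Agent.H499R2.ND.exists_prime3' hodd hk3 _ x hn0 le_rfl
  set a := (Pool.Agent.H499R2.ND.Td k)^[j] x with ha
  have haU : a ∈ {n : ℤ | EvPer k n}ᶜ := (Pool.Agent.H499R2.ND.inv_iter (unb_inv k) j x).1 hx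
  have ha0 : a ≠ 0 := by
    intro h0; apply hj; rw [h0]; exact dvd_zero _
  rcases lt_or_gt_of_ne ha0 with h | h
  · exact ⟨-1, a, Or.inr rfl, by omega, hj, haU⟩
  · exact ⟨1, a, Or.inl rfl, by omega, hj, haU⟩

theorem cube_fin {n : ℕ} (s : ℤ) (A : Fin n → Fin n → ℤ) (l : Fin n → ℤ) (c : ℤ) (S : Set ℤ) (N : ℕ) :
    (Cube s A l c S N).Finite :=
  (Pool.Agent.Run7.h145.QL.X.cube_finite n N).subset fun _ hx => hx.1

theorem basin_inv {k c : ℤ} (hc : Periodic k c) (x : ℤ) : x ∈ Basin k c ↔ T k x ∈ Basin k c :=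
  Pool.Agent.Results.MP_7f88e4_nt.ResidueClasses.basin_inv hc x

/-- the product of two variables -/
def XY : Fin 2 → Fin 2 → ℤ := ![![0, 1], ![0, 0]]

theorem xy_val (x : Fin 2 → ℤ) : Val XY 0 0 x = x 0 * x 1 := by
  have h := Pool.Agent.Run7.h145.QL.X.bin_val 0 1 0 0 x
  have e : Val XY 0 0 x = Pool.Agent.Run7.h145.QL.X.Val (Pool.Agent.Run7.h145.QL.X.Bin 0 1 0) 0 0 x := rfl
  rw [e, h]; ring

theorem xy_rank : RankTwo XY := Pool.Agent.Run7.h145.QL.X.bin_rank (α := 0) (β := 1) (γ := 0) (by norm_num)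

/-- positive proportion -/
theorem positive {s k : ℤ} (hs : s = 1 ∨ s = -1) (hk : k % 6 = 1 ∨ k % 6 = 5) {S : Set ℤ} (hS : Invariant k S)
    {x : ℤ} (hx : x ∈ S) (hsx : 0 < s * x) (hx3 : ¬ (3 : ℤ) ∣ x) {n : ℕ} {A : Fin n → Fin n → ℤ} (hA : RankTwo A)
    (l : Fin n → ℤ) (c : ℤ) {x₀ r : Fin n → ℤ} (h0 : 0 < s * ∑ i, ∑ j, A i j * x₀ i * x₀ j)
    (hr : ∃ i j : ℕ, Val A l c r ≡ 2 ^ i * 3 ^ j * x [ZMOD k]) :
    ∃ κ : ℝ, 0 < κ ∧ ∀ᶠ N : ℕ in atTop, κ * (N : ℝ) ^ n ≤ (Cube s A l c S N).ncard := by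
  obtain ⟨δ, -, -, h3, h4, h5⟩ := Pool.Agent.Run7.h145.QK.structure_k hs hk hS
  exact Pool.Agent.Run7.h145.QK.lower_k (by omega) (fun a b hab => h3 a b ⟨0, 0, by simpa using hab⟩) h5 hA l c h0
    (h4 _ x hx hsx hx3 hr)

/-- Let `k` be congruent to `1` or `5` modulo `6`.
(1) Let `s = 1` or `s = -1` and let `S` be a set of integers invariant under the `3x+k` map. Then `S` has
densities `δ a` in the residue classes modulo `k` (the integers of sign `s`), and these describe `S` along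
the values of all integral quadratic polynomials whose quadratic part has rank at least two, as stated in
`Law`: uniformly in the linear coefficients and the constant term, in boxes, in ranges of the values and in
residue classes of the variables. (2) In particular, if the form takes a value of sign `s`, the proportion of
the points of `[-N, N] ^ n` with value in `S` (among those with value of sign `s`) differs by `o(1)` from
the sum of `δ j` times the proportion of the points with value congruent to `j` modulo `k`.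
(3) If `S` contains an integer `x` of sign `s` prime to `3`, and the polynomial takes a value congruent to some
`2 ^ i 3 ^ j x` modulo `k`, then the values in `S` of sign `s` have a positive lower proportion; and if
`β ^ 2 ≠ 4 α γ`, all large `m` for which `s m` is congruent modulo `k` to some
`α a ^ 2 + β a b + γ b ^ 2 + 2 ^ i 3 ^ j x` have at least `κ m` representations
`s m = α y ^ 2 + β y z + γ z ^ 2 + t` with positive `y`, `z` at most `√m` and `t ∈ S` of sign `s`.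
(4) In particular this holds for the basin of a cycle: `S` the set of the integers whose orbit reaches the
periodic point `x ≠ 0`.
(5) If for one polynomial which takes values in all residue classes modulo `k` and whose quadratic part
takes values of both signs the points with eventually periodic value have proportion `1`, on both sides
(even for a sequence of `N` only), then every orbit of the `3x+k` map is eventually periodic.
(6) Every orbit of the `3x+k` map is eventually periodic if and only if this is true for the orbits of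
almost all products `x y`. -/
theorem result (k : ℤ) (hk : k % 6 = 1 ∨ k % 6 = 5) :
    (∀ s : ℤ, (s = 1 ∨ s = -1) → ∀ S : Set ℤ, Invariant k S →
      (∃ δ : ℤ → ℝ, (∀ a : ℤ, HasDensity s k a S (δ a)) ∧ Law s k S δ ∧
        ∀ (n : ℕ) (A : Fin n → Fin n → ℤ), RankTwo A → ∀ (l : Fin n → ℤ) (c : ℤ) (x₀ : Fin n → ℤ),
          0 < s * ∑ i, ∑ j, A i j * x₀ i * x₀ j →
          Tendsto (fun N : ℕ => ((Cube s A l c S N).ncard -
            ∑ j ∈ range k.natAbs, δ j * ((Cube s A l c {z | z ≡ (j : ℤ) [ZMOD k]} N).ncard : ℝ)) /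
            ((Cube s A l c Set.univ N).ncard : ℝ)) atTop (𝓝 0)) ∧
      ∀ x ∈ S, 0 < s * x → ¬ (3 : ℤ) ∣ x →
        (∀ (n : ℕ) (A : Fin n → Fin n → ℤ), RankTwo A → ∀ (l : Fin n → ℤ) (c : ℤ) (x₀ r : Fin n → ℤ),
          0 < s * ∑ i, ∑ j, A i j * x₀ i * x₀ j → (∃ i j : ℕ, Val A l c r ≡ 2 ^ i * 3 ^ j * x [ZMOD k]) →
          ∃ κ : ℝ, 0 < κ ∧ ∀ᶠ N : ℕ in atTop, κ * (N : ℝ) ^ n ≤ (Cube s A l c S N).ncard) ∧
        ∀ α β γ : ℤ, β ^ 2 ≠ 4 * α * γ → ∃ κ : ℝ, 0 < κ ∧ ∃ m₀ : ℕ, ∀ m : ℕ, m₀ ≤ m →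
          (∃ (a b : ℤ) (i j : ℕ), s * m ≡ α * a ^ 2 + β * a * b + γ * b ^ 2 + 2 ^ i * 3 ^ j * x [ZMOD k]) →
          κ * m ≤ {p : ℤ × ℤ | (0 < p.1 ∧ p.1 ^ 2 ≤ m) ∧ (0 < p.2 ∧ p.2 ^ 2 ≤ m) ∧
            ∃ t ∈ S, 0 < s * t ∧ s * m = (α * p.1 ^ 2 + β * p.1 * p.2 + γ * p.2 ^ 2) + t}.ncard) ∧
    (∀ s x : ℤ, (s = 1 ∨ s = -1) → 0 < s * x → Periodic k x →
      ∀ (n : ℕ) (A : Fin n → Fin n → ℤ), RankTwo A → ∀ (l : Fin n → ℤ) (c : ℤ) (x₀ r : Fin n → ℤ),
          0 < s * ∑ i, ∑ j, A i j * x₀ i * x₀ j → (∃ i j : ℕ, Val A l c r ≡ 2 ^ i * 3 ^ j * x [ZMOD k]) →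
          ∃ κ : ℝ, 0 < κ ∧ ∀ᶠ N : ℕ in atTop, κ * (N : ℝ) ^ n ≤ (Cube s A l c (Basin k x) N).ncard) ∧
    (∀ (n : ℕ) (A : Fin n → Fin n → ℤ), RankTwo A → ∀ (l : Fin n → ℤ) (c : ℤ),
      (∀ s : ℤ, (s = 1 ∨ s = -1) → ∃ x₀ : Fin n → ℤ, 0 < s * ∑ i, ∑ j, A i j * x₀ i * x₀ j) →
      (∀ a : ℤ, ∃ r : Fin n → ℤ, Val A l c r ≡ a [ZMOD k]) → ∀ N : ℕ → ℕ, Tendsto N atTop atTop →
      (∀ s : ℤ, (s = 1 ∨ s = -1) → Tendsto (fun i => ((Cube s A l c {z | EvPer k z} (N i)).ncard : ℝ) /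
        (Cube s A l c Set.univ (N i)).ncard) atTop (𝓝 1)) → ∀ x : ℤ, EvPer k x) ∧
    ((∀ x : ℤ, EvPer k x) ↔ Tendsto (fun N : ℕ =>
      ({p : ℤ × ℤ | |p.1| ≤ N ∧ |p.2| ≤ N ∧ EvPer k (p.1 * p.2)}.ncard : ℝ) / (2 * N + 1) ^ 2) atTop (𝓝 1)) := by
  have hk0 : k ≠ 0 := by omega
  have hk2 : k % 2 = 1 := by omega
  have hk3 : ¬ (3 : ℤ) ∣ k := by omega
  refine ⟨fun s hs S hS => ⟨?_, fun x hx hsx hx3 => ⟨?_, ?_⟩⟩, ?_, ?_, ?_⟩
  · obtain ⟨δ, h1, -, -, -, h5⟩ := Pool.Agent.Run7.h145.QK.structure_k hs hk hS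
    refine ⟨δ, h1, h5, fun n A hA l c x₀ h0 => ?_⟩
    obtain ⟨κ, hκ, hpos⟩ := Pool.Agent.Run7.h145.QK.pos_prop_s A l c h0
    have hpos' : ∀ᶠ N : ℕ in atTop, κ * (N : ℝ) ^ n ≤ ((Cube s A l c Set.univ N).ncard : ℝ) := by
      filter_upwards [hpos] with N hN
      refine hN.trans (le_of_eq ?_)
      congr 2
      ext x
      exact ⟨fun h => ⟨h.1, h.2, trivial⟩, fun h => ⟨h.1, h.2.1⟩⟩
    refine Pool.Agent.Run7.h145.QL.X.ratio_lim hκ hpos' fun ε hε => ?_
    filter_upwards [Pool.Agent.Run7.h145.QK.cube_law h5 hA l c hε] with N hN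
    rw [zero_mul, sub_zero]
    exact hN
  · intro n A hA l c x₀ r h0 hr
    exact positive hs hk hS hx hsx hx3 hA l c h0 hr
  · intro α β γ hdisc
    obtain ⟨δ, h1, -, h3, h4, h5⟩ := Pool.Agent.Run7.h145.QK.structure_k hs hk hS
    have hδx : 0 < δ x := h4 x x hx hsx hx3 ⟨0, 0, by simp⟩
    obtain ⟨κ, hκ, m₀, h6⟩ := Pool.Agent.Run7.h145.QK.represent_k hs hk0
      (fun a b hab => h3 a b ⟨0, 0, by simpa using hab⟩) h5 hδx hdisc
    refine ⟨κ, hκ, m₀, ?_⟩
    rintro m hm ⟨a, b, i, j, hab⟩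
    refine h6 m hm ⟨a, b, h3 _ _ ⟨i, j, ?_⟩⟩
    have h7 := hab.sub_right (α * a ^ 2 + β * a * b + γ * b ^ 2)
    rwa [add_sub_cancel_left] at h7
  · intro s x hs hsx hp n A hA l c x₀ r h0 hr
    obtain ⟨p, hp1, hpp⟩ := hp
    have hx0 : x ≠ 0 := by rintro rfl; simp at hsx
    have h3 := Pool.Agent.H366R2.KGen.periodic_not_dvd hk2 hk3 hx0 hp1 hpp
    exact positive hs hk (fun z => basin_inv ⟨p, hp1, hpp⟩ z) (x := x) ⟨0, rfl⟩ hsx h3 hA l c h0 hr
  · intro n A hA l c hform hres N hN hlim x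
    by_contra hx
    obtain ⟨s, a, hs, hsa, ha3, ha⟩ := exists_unb hk hx
    obtain ⟨x₀, h0⟩ := hform s hs
    obtain ⟨r, hr⟩ := hres a
    obtain ⟨κ, hκ, h1⟩ := positive hs hk (unb_inv k) (x := a) ha hsa ha3 hA l c h0 (r := r) ⟨0, 0, by simpa using hr⟩
    have h2 := hlim s hs
    have h3 : ∀ᶠ i in atTop, ((Cube s A l c {z | EvPer k z} (N i)).ncard : ℝ) / (Cube s A l c Set.univ (N i)).ncard ≤
        1 - κ / 3 ^ n := by
      filter_upwards [hN.eventually h1, hN.eventually (eventually_ge_atTop 1)] with i hi hi1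
      have hNi : (1 : ℝ) ≤ N i := by exact_mod_cast hi1
      have hsum : (Cube s A l c {z | EvPer k z} (N i)).ncard + (Cube s A l c {z | EvPer k z}ᶜ (N i)).ncard =
          (Cube s A l c Set.univ (N i)).ncard := by
        rw [← Set.ncard_union_eq _ (cube_fin _ _ _ _ _ _) (cube_fin _ _ _ _ _ _)]
        · congr 1
          ext y
          simp only [Cube, Set.mem_union, Set.mem_ofPred_eq, Set.mem_compl_iff, Set.mem_univ, and_true]
          tauto
        · rw [Set.disjoint_left]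
          rintro y ⟨-, -, g1⟩ ⟨-, -, g2⟩
          exact g2 g1
      have hle : ((Cube s A l c Set.univ (N i)).ncard : ℝ) ≤ (3 * (N i : ℝ)) ^ n := by
        have h4 : (Cube s A l c Set.univ (N i)).ncard ≤ (Pool.Agent.Run7.h145.QL.X.Cube n (N i)).ncard :=
          Set.ncard_le_ncard (fun y hy => hy.1) (Pool.Agent.Run7.h145.QL.X.cube_finite n (N i))
        have h5 : (Pool.Agent.Run7.h145.QL.X.Cube n (N i)).ncard = (2 * N i + 1) ^ n := by
          have : Pool.Agent.Run7.h145.QL.X.Cube n (N i) =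
              ((Fintype.piFinset (fun _ => Finset.Icc (-(N i : ℤ)) (N i)) : Finset (Fin n → ℤ)) : Set (Fin n → ℤ)) := by
            ext y
            simp [Pool.Agent.Run7.h145.QL.X.Cube, abs_le, Pi.le_def, forall_and]
          rw [this, Set.ncard_coe_finset, Fintype.card_piFinset]
          simp only [Int.card_Icc, prod_const, card_univ, Fintype.card_fin]
          congr 1
          omega
        have h6 : ((Cube s A l c Set.univ (N i)).ncard : ℝ) ≤ ((2 * N i + 1) ^ n : ℕ) := by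
          exact_mod_cast h4.trans (le_of_eq h5)
        refine h6.trans ?_
        push_cast
        apply pow_le_pow_left₀ (by positivity)
        linarith
      have hsumr : ((Cube s A l c {z | EvPer k z} (N i)).ncard : ℝ) + (Cube s A l c {z | EvPer k z}ᶜ (N i)).ncard =
          (Cube s A l c Set.univ (N i)).ncard := by exact_mod_cast hsum
      have hNn : (0 : ℝ) < (N i : ℝ) ^ n := by positivity
      have hpos : (0 : ℝ) < (Cube s A l c Set.univ (N i)).ncard := by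
        have : (0 : ℝ) < κ * (N i : ℝ) ^ n := by positivity
        have h7 : (0 : ℝ) ≤ (Cube s A l c {z | EvPer k z} (N i)).ncard := Nat.cast_nonneg _
        linarith
      rw [div_le_iff₀ hpos, sub_mul, one_mul]
      have h8 : κ / 3 ^ n * ((Cube s A l c Set.univ (N i)).ncard : ℝ) ≤ κ * (N i : ℝ) ^ n := by
        calc κ / 3 ^ n * ((Cube s A l c Set.univ (N i)).ncard : ℝ) ≤ κ / 3 ^ n * (3 * (N i : ℝ)) ^ n := by gcongr
          _ = κ * (N i : ℝ) ^ n := by rw [mul_pow]; field_simp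
      linarith
    have h4 := le_of_tendsto h2 h3
    have : 0 < κ / 3 ^ n := by positivity
    linarith
  · have htot : ∀ N : ℕ, {p : ℤ × ℤ | |p.1| ≤ N ∧ |p.2| ≤ N}.ncard = (2 * N + 1) ^ 2 := by
      intro N
      have e : {p : ℤ × ℤ | |p.1| ≤ N ∧ |p.2| ≤ N} =
          ((Finset.Icc (-(N : ℤ)) N ×ˢ Finset.Icc (-(N : ℤ)) N : Finset (ℤ × ℤ)) : Set (ℤ × ℤ)) := by
        ext p
        simp only [Set.mem_ofPred_eq, coe_product, Set.mem_prod, mem_coe, mem_Icc, abs_le]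
      rw [e, Set.ncard_coe_finset, card_product, Int.card_Icc]
      have : ((N : ℤ) + 1 - -(N : ℤ)).toNat = 2 * N + 1 := by omega
      rw [this, sq]
    have hfin : ∀ N : ℕ, {p : ℤ × ℤ | |p.1| ≤ (N : ℤ) ∧ |p.2| ≤ (N : ℤ)}.Finite := by
      intro N
      apply ((Set.finite_Icc (-(N : ℤ)) N).prod (Set.finite_Icc (-(N : ℤ)) N)).subset
      rintro ⟨y, z⟩ ⟨h1, h2⟩
      exact ⟨abs_le.1 h1, abs_le.1 h2⟩
    constructor
    · intro h
      refine tendsto_const_nhds.congr fun N => ?_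
      have e : {p : ℤ × ℤ | |p.1| ≤ N ∧ |p.2| ≤ N ∧ EvPer k (p.1 * p.2)} = {p : ℤ × ℤ | |p.1| ≤ N ∧ |p.2| ≤ N} := by
        ext p
        exact ⟨fun g => ⟨g.1, g.2.1⟩, fun g => ⟨g.1, g.2, h _⟩⟩
      rw [e, htot]
      push_cast
      have : (0 : ℝ) < (2 * (N : ℝ) + 1) ^ 2 := by positivity
      field_simp
    · intro h x
      by_contra hx
      obtain ⟨s, a, hs, hsa, ha3, ha⟩ := exists_unb hk hx
      have h0 : 0 < s * ∑ i, ∑ j, XY i j * (![1, s] : Fin 2 → ℤ) i * (![1, s] : Fin 2 → ℤ) j := by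
        rcases hs with rfl | rfl <;> simp [XY, Fin.sum_univ_two]
      obtain ⟨κ, hκ, h1⟩ := positive hs hk (unb_inv k) (x := a) ha hsa ha3 xy_rank 0 0 h0 (r := ![1, a])
        ⟨0, 0, by rw [xy_val]; simp⟩
      have h2 : ∀ᶠ N : ℕ in atTop, ({p : ℤ × ℤ | |p.1| ≤ N ∧ |p.2| ≤ N ∧ EvPer k (p.1 * p.2)}.ncard : ℝ) / (2 * N + 1) ^ 2 ≤
          1 - κ / 9 := by
        filter_upwards [h1, eventually_ge_atTop 1] with N hN hN1
        have hN1' : (1 : ℝ) ≤ N := by exact_mod_cast hN1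
        have e1 : (Cube s XY 0 0 {z | EvPer k z}ᶜ N).ncard ≤
            {p : ℤ × ℤ | (|p.1| ≤ N ∧ |p.2| ≤ N) ∧ ¬ EvPer k (p.1 * p.2)}.ncard := by
          rw [Pool.Agent.Run7.h145.QL.X.ncard_pair (fun y z => (|y| ≤ N ∧ |z| ≤ N) ∧ ¬ EvPer k (y * z))]
          apply Set.ncard_le_ncard
          · rintro y ⟨g1, g2, g3⟩
            rw [xy_val] at g3
            exact ⟨⟨g1 0, g1 1⟩, g3⟩
          · apply (Pool.Agent.Run7.h145.QL.X.cube_finite 2 N).subset
            rintro y ⟨⟨g1, g2⟩, -⟩ i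
            fin_cases i
            · exact g1
            · exact g2
        have e2 : {p : ℤ × ℤ | |p.1| ≤ N ∧ |p.2| ≤ N ∧ EvPer k (p.1 * p.2)}.ncard +
            {p : ℤ × ℤ | (|p.1| ≤ N ∧ |p.2| ≤ N) ∧ ¬ EvPer k (p.1 * p.2)}.ncard = (2 * N + 1) ^ 2 := by
          rw [← htot N, ← Set.ncard_union_eq _ ((hfin N).subset fun p hp => ⟨hp.1, hp.2.1⟩) ((hfin N).subset fun p hp => hp.1)]
          · congr 1
            ext p
            simp only [Set.mem_union, Set.mem_ofPred_eq]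
            tauto
          · rw [Set.disjoint_left]
            rintro p ⟨-, -, g1⟩ ⟨-, g2⟩
            exact g2 g1
        have e2r : ({p : ℤ × ℤ | |p.1| ≤ N ∧ |p.2| ≤ N ∧ EvPer k (p.1 * p.2)}.ncard : ℝ) +
            {p : ℤ × ℤ | (|p.1| ≤ N ∧ |p.2| ≤ N) ∧ ¬ EvPer k (p.1 * p.2)}.ncard = (2 * N + 1) ^ 2 := by exact_mod_cast e2
        have e1r : ((Cube s XY 0 0 {z | EvPer k z}ᶜ N).ncard : ℝ) ≤
            {p : ℤ × ℤ | (|p.1| ≤ N ∧ |p.2| ≤ N) ∧ ¬ EvPer k (p.1 * p.2)}.ncard := by exact_mod_cast e1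
        rw [div_le_iff₀ (by positivity), sub_mul, one_mul]
        have h8 : κ / 9 * (2 * (N : ℝ) + 1) ^ 2 ≤ κ * (N : ℝ) ^ 2 := by
          calc κ / 9 * (2 * (N : ℝ) + 1) ^ 2 ≤ κ / 9 * (3 * (N : ℝ)) ^ 2 := by
                gcongr
                linarith
            _ = κ * (N : ℝ) ^ 2 := by ring
        linarith
      have h4 := le_of_tendsto h h2
      have : 0 < κ / 9 := by positivity
      linarith

end Pool.Agent.Results.MP_7f88e4_nt.QuadraticValues
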