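import Pool.Agent.Run7.h914.MC.Cyc
import Pool.Agent.H499R2.NDCor3

set_option autoImplicit false

/-!
# The `3x+k` maps and rational functions modulo large primes

For a prime `p` between `N ^ δ` and `N ^ (2 - δ)` and rational functions `R_1, …, R_r` modulo `p` no
nontrivial linear combination of which is a polynomial of degree at most two (for example `R_1(n) = 1 / n`),
consider the integers `n` for which the residues `R_i(n)` lie in given intervals modulo `p`. This is the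
structure `Datum` of the library, with `Datum.Mem` (membership) and `Datum.vol` (the proportion of the box).
Every set of integers which is a union of classes of orbits of `T_{3,k}` which meet has its proportional
share in every such set, with a power saving which is uniform in the set, in `k` and in the prime. Both
questions, for the map `T_{3,k}`, are decided by such sets, of density `N ^ (-δ / 8000)`.
-/

namespace Pool.Agent.Results.MP_7f88e4_nt.RationalFunctionsModP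

open Filter Topology
open Run7.h914.MC (Datum cnt Dens InvIn)

/-- the `3x+k` map on the integers -/
def T (k x : ℤ) : ℤ := if x % 2 = 0 then x / 2 else (3 * x + k) / 2

/-- `Z` is a cycle (periodic orbit) of `T_{3,k}`. -/
def IsCycle (k : ℤ) (Z : Finset ℤ) : Prop :=
  ∃ (x : ℤ) (p : ℕ), 1 ≤ p ∧ (T k)^[p] x = x ∧ Z = (Finset.range p).image fun i => (T k)^[i] x

/-- the orbit of `x` reaches `Z` -/
def Reaches (k x : ℤ) (Z : Finset ℤ) : Prop := ∃ j : ℕ, (T k)^[j] x ∈ Z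

/-- the orbit of `n` is eventually periodic -/
def EvPer (k n : ℤ) : Prop := ∃ m p : ℕ, 1 ≤ p ∧ (T k)^[m + p] n = (T k)^[m] n

/-- `S` contains an integer if and only if it contains its image -/
def Invariant (k : ℤ) (S : Set ℤ) : Prop := ∀ x : ℤ, x ∈ S ↔ T k x ∈ S

/-- the number of the `1 ≤ n ≤ X` with the property `P` -/
noncomputable def count (P : ℕ → Prop) (X : ℕ) : ℝ := ({n : ℕ | 1 ≤ n ∧ n ≤ X ∧ P n}.ncard : ℝ)

/-- The set of the positive integers with the property `P` has natural density `l`. -/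
def HasDensity (P : ℕ → Prop) (l : ℝ) : Prop := Tendsto (fun X : ℕ => count P X / X) atTop (𝓝 l)

/-- `n` has a multiplicative inverse modulo `p` in `α, α + 1, …, α + (m - 1)` -/
def InverseIn (p : ℕ) (α : ZMod p) (m n : ℕ) : Prop := ¬ p ∣ n ∧ ∃ j : ℕ, j < m ∧ (n : ZMod p)⁻¹ = α + (j : ZMod p)

/-- For every `ε > 0` and arbitrarily large `N` there is a datum of volume `v ≥ N ^ (-δ / 8000)` such that at most
`ε v N` of the `n ≤ N` in its set have the property `P`. -/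
def FewInSparseSets (r : ℕ) (δ : ℝ) (P : ℕ → Prop) : Prop :=
  ∀ ε : ℝ, 0 < ε → ∀ N₀ : ℕ, ∃ N : ℕ, N₀ ≤ N ∧ ∃ D : Datum δ N r, (N : ℝ) ^ (-(δ / 8000)) ≤ D.vol ∧
    count (fun n => D.Mem n ∧ P n) N ≤ ε * D.vol * N

theorem inv_ev (k : ℤ) : Invariant k {n : ℤ | EvPer k n} := by
  have h : {n : ℤ | EvPer k n}
      = {n : ℤ | ∃ j, ∃ p, 1 ≤ p ∧ (Pool.Agent.H499R2.ND.Td k)^[p] ((Pool.Agent.H499R2.ND.Td k)^[j] n) =
        (Pool.Agent.H499R2.ND.Td k)^[j] n} := by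
    ext n; exact Pool.Agent.H499R2.ND.evper_iff (T k) n
  rw [h]; exact Pool.Agent.H499R2.ND.inv_evper k

/-- THE `3x+k` MAPS AND RATIONAL FUNCTIONS MODULO LARGE PRIMES.

(1) (Transfer, uniform in `k`.) For `0 < δ ≤ 1` and `r` there is `K` such that for all `N ≥ 1`, all data `D` (a
prime `p` between `N ^ δ` and `N ^ (2 - δ)`, `r` rational functions of degree at most `N ^ (δ / 200)` modulo `p`
and `r` intervals modulo `p`), all odd `k` with `|k| ≤ N ^ (δ / 200)`, both signs `s`, all invariant sets `S` of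
`T_{3,k}` and all `X ≤ N` the number of the `n ≤ X` in the set of `D` with `s n ∈ S` is `D.vol` times the number
of all `n ≤ X` with `s n ∈ S`, up to `K N ^ (1 - δ / 4000)`.

Let `k` be congruent to `1` or `5` modulo `6`.

(2) Let `s` be a sign and `S` an invariant set. The `n` with `s n ∈ S` have a natural density `l`, positive
if `S` contains an integer all whose orbit has the sign of `s`, and for all `δ`, `r` and `ε > 0`, all large `N`
and all data `D` with `D.vol ≥ N ^ (-δ / 8000)` the number of the `n ≤ N` in the set of `D` with `s n ∈ S` is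
`l D.vol N` up to `ε D.vol N`; in particular for all primes `p` between `N ^ δ` and `N ^ (2 - δ)` and all
intervals of `m ≥ p N ^ (-δ / 8000)` residues modulo `p` the number of the `n ≤ N` with `s n ∈ S` and an
inverse modulo `p` in the interval is `l (m / p) N` up to `ε (m / p) N`.

(3) All orbits of `T_{3,k}` are eventually periodic if and only if for both signs `s` there are `r` and `δ` such
that for every `ε > 0`, for arbitrarily large `N`, there is a datum `D` with `D.vol ≥ N ^ (-δ / 8000)` such that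
at most `ε D.vol N` of the orbits of `s n`, `n ≤ N` in the set of `D`, are not eventually periodic.

(4) `T_{3,k}` has only finitely many cycles if and only if there is a finite set `𝒰` such that for both signs
`s` there are `r` and `δ` such that for every `ε > 0`, for arbitrarily large `N`, there is a datum `D` with
`D.vol ≥ N ^ (-δ / 8000)` such that at most `ε D.vol N` of the orbits of `s n`, `n ≤ N` in the set of `D`, end
in a cycle outside `𝒰`. -/
theorem result :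
    (∀ (r : ℕ) (δ : ℝ), 0 < δ → δ ≤ 1 → ∃ K : ℝ, ∀ N : ℕ, 1 ≤ N → ∀ D : Datum δ N r,
      ∀ k : ℤ, k % 2 = 1 → |(k : ℝ)| ≤ (N : ℝ) ^ (δ / 200) → ∀ s : ℤ, s = 1 ∨ s = -1 →
      ∀ S : Set ℤ, Invariant k S → ∀ X : ℕ, X ≤ N →
        |count (fun n => D.Mem n ∧ s * (n : ℤ) ∈ S) X - D.vol * count (fun n => s * (n : ℤ) ∈ S) X| ≤
          K * (N : ℝ) ^ (1 - δ / 4000)) ∧
    (∀ k : ℤ, k % 6 = 1 ∨ k % 6 = 5 → ∀ s : ℤ, s = 1 ∨ s = -1 → ∀ S : Set ℤ, Invariant k S → ∃ l : ℝ,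
      ((∃ x ∈ S, ∀ j : ℕ, 0 < s * (T k)^[j] x) → 0 < l) ∧
      HasDensity (fun n => s * (n : ℤ) ∈ S) l ∧
      (∀ (r : ℕ) (δ : ℝ), 0 < δ → δ ≤ 1 → ∀ ε : ℝ, 0 < ε → ∃ N₀ : ℕ, ∀ N : ℕ, N₀ ≤ N → ∀ D : Datum δ N r,
        (N : ℝ) ^ (-(δ / 8000)) ≤ D.vol →
        |count (fun n => D.Mem n ∧ s * (n : ℤ) ∈ S) N - l * D.vol * N| ≤ ε * D.vol * N) ∧
      (∀ δ : ℝ, 0 < δ → δ ≤ 1 → ∀ ε : ℝ, 0 < ε → ∃ N₀ : ℕ, ∀ N : ℕ, N₀ ≤ N → ∀ p : ℕ, p.Prime →
        (N : ℝ) ^ δ ≤ p → (p : ℝ) ≤ (N : ℝ) ^ (2 - δ) → ∀ (α : ZMod p) (m : ℕ), m ≤ p →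
        (N : ℝ) ^ (-(δ / 8000)) ≤ (m : ℝ) / p →
        |count (fun n => InverseIn p α m n ∧ s * (n : ℤ) ∈ S) N - l * ((m : ℝ) / p) * N| ≤
          ε * ((m : ℝ) / p) * N)) ∧
    (∀ k : ℤ, k % 6 = 1 ∨ k % 6 = 5 → ((∀ n : ℤ, EvPer k n) ↔
      ∀ s : ℤ, s = 1 ∨ s = -1 → ∃ (r : ℕ) (δ : ℝ), 0 < δ ∧ δ ≤ 1 ∧ FewInSparseSets r δ (fun n => ¬ EvPer k (s * n)))) ∧
    (∀ k : ℤ, k % 6 = 1 ∨ k % 6 = 5 → ({Z : Finset ℤ | IsCycle k Z}.Finite ↔ ∃ 𝒰 : Set (Finset ℤ), 𝒰.Finite ∧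
      ∀ s : ℤ, s = 1 ∨ s = -1 → ∃ (r : ℕ) (δ : ℝ), 0 < δ ∧ δ ≤ 1 ∧
        FewInSparseSets r δ (fun n => ∃ Z : Finset ℤ, IsCycle k Z ∧ Z ∉ 𝒰 ∧ Reaches k (s * n) Z))) := by
  have hk2 : ∀ k : ℤ, k % 6 = 1 ∨ k % 6 = 5 → k % 2 = 1 := fun k hk => by omega
  have hk3 : ∀ k : ℤ, k % 6 = 1 ∨ k % 6 = 5 → ¬ (3 : ℤ) ∣ k := fun k hk => by omega
  refine ⟨fun r δ hδ hδ1 => ?_, fun k hk s hs S hS => ?_, fun k hk => ⟨fun h s hs => ?_, fun h => ?_⟩,
    fun k hk => ⟨fun h => ?_, ?_⟩⟩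
  · obtain ⟨K, hK, h⟩ := Run7.h914.MC.inv_sets r δ hδ hδ1
    exact ⟨K, fun N hN D k hk hkN s hs S hS X hX => h N hN D k hk hkN s hs S hS X hX⟩
  · have hS' : ∀ x, x ∈ S ↔ Pool.Agent.H499R2.ND.Td k x ∈ S := hS
    have hc3 := Pool.Agent.H499R2.ND.cop_of_not_dvd (hk3 k hk)
    obtain ⟨l, _, _, hl, hpos⟩ := Run7.h914.MC.dens_inv (hk2 k hk) hc3 hs hS'
    refine ⟨l, ?_, hl, fun r δ hδ hδ1 ε hε => ?_, fun δ hδ hδ1 ε hε => ?_⟩
    · rintro ⟨x, hxS, hx⟩
      have hx0 : x ≠ 0 := by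
        rintro rfl
        have := hx 0
        simp at this
      obtain ⟨j, hj⟩ := Pool.Agent.H499R2.ND.exists_prime3' (Int.odd_iff.2 (hk2 k hk)) (hk3 k hk) _ x hx0 le_rfl
      exact hpos _ ((Run7.h914.MC.inv_it hS' j x).1 hxS) (hx j) hj
    · exact Run7.h914.MC.inv_rel r δ hδ hδ1 (hk2 k hk) hc3 hs hS' hl ε hε
    · exact Run7.h914.MC.inv_law hδ (Run7.h914.MC.inv_rel 1 δ hδ hδ1 (hk2 k hk) hc3 hs hS' hl ε hε)
  · exact ⟨0, 1 / 2, by norm_num, by norm_num, Run7.h914.MC.few_none fun n _ hn => hn (h _)⟩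
  · have hS : ∀ x, x ∈ {n : ℤ | ¬ EvPer k n} ↔ Pool.Agent.H499R2.ND.Td k x ∈ {n : ℤ | ¬ EvPer k n} := fun x =>
      not_congr (inv_ev k x)
    have h1 := Run7.h914.MC.empty_of (hk2 k hk) (hk3 k hk) hS (fun h0 => h0 ⟨0, 1, le_refl _, rfl⟩) h
    intro n
    by_contra hn
    have h2 : n ∈ {n : ℤ | ¬ EvPer k n} := hn
    rw [h1] at h2
    exact h2
  · refine ⟨_, h, fun s hs => ⟨0, 1 / 2, by norm_num, by norm_num, ?_⟩⟩
    exact Run7.h914.MC.few_none fun n _ ⟨Z, h1, h2, _⟩ => h2 h1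
  · rintro ⟨𝒰, hU, h⟩
    refine (hU.union (Set.finite_singleton {0})).subset fun Z hZ => ?_
    exact Run7.h914.MC.cyc_finite (hk2 k hk) (hk3 k hk) 𝒰 h Z hZ

end Pool.Agent.Results.MP_7f88e4_nt.RationalFunctionsModP
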